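import Pool.Agent.H839R3.Main

/-!
# Gödel-Bernays class theory with urelements and Global Choice is conservative

A sentence of the language of set theory with urelements holds in all models of `GBU_R` + Global
Choice if and only if it holds in all models of `ZFCU_R`.
-/

namespace Pool.Agent.Results.MP_befa16_lc.Conservative

open FirstOrder FirstOrder.Language
open Pool.Agent.Helper672.ZFA (L)
open Pool.Agent.H839R3

universe u

theorem result (σ : L.Sentence) :
    (∀ (M C : Type u) [L.Structure M] (η : M → C → Prop),
      GBUR M C η → GlobalChoice M C η → M ⊨ σ) ↔
    ∀ (M : Type u) [L.Structure M], ZFCUR M → M ⊨ σ :=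
  conservative σ

end Pool.Agent.Results.MP_befa16_lc.Conservative
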